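import Pool.Agent.Q81.JN.Stm

/-!
# Project JN, job ALB
-/

set_option autoImplicit false

namespace Pool.Agent.Q162.JN

open Pool.Agent.Q81.JN

/-- Job ALB: the quadratic inequality in `t`. -/
theorem alb : S_ALB := by
  intro x g u w t hx0 hx1 hg hgu hd
  have hxu : x ≤ u := by nlinarith [mul_nonneg hx0.le (sub_nonneg.2 hg)]
  have hP : 0 < u ^ 2 + w ^ 2 - x ^ 2 / 4 := by
    nlinarith [mul_nonneg (sub_nonneg.2 hxu) (add_nonneg hx0.le (hx0.le.trans hxu)),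
      sq_nonneg w, mul_pos hx0 hx0]
  have hx1' : 0 ≤ 1 - x := sub_nonneg.2 hx1
  have h0 : 0 ≤ u + g * x - x ^ 2 := by
    have : x ^ 2 ≤ x := by nlinarith [mul_nonneg hx0.le hx1']
    have h' : 0 ≤ g * x := mul_nonneg (by linarith) hx0.le
    linarith
  have h1 : 0 ≤ (u - g * x) * (u + g * x - x ^ 2) := mul_nonneg (by linarith) h0
  have h2 : 0 ≤ x ^ 2 * ((1 - x) * (g - (1 + x) / 4)) :=
    mul_nonneg (sq_nonneg x) (mul_nonneg hx1' (by linarith))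
  have h3 : 0 ≤ x ^ 2 * ((g - 1 / 2) ^ 2 - ((u - 1 / 2) ^ 2 + w ^ 2)) :=
    mul_nonneg (sq_nonneg x) (sub_nonneg.2 hd)
  have h4 : w ^ 2 ≤ (1 - x ^ 2) * (u ^ 2 + w ^ 2 - x ^ 2 / 4) := by
    have : (1 - x ^ 2) * (u ^ 2 + w ^ 2 - x ^ 2 / 4) - w ^ 2 =
        (u - g * x) * (u + g * x - x ^ 2) + x ^ 2 * ((1 - x) * (g - (1 + x) / 4)) +
          x ^ 2 * ((g - 1 / 2) ^ 2 - ((u - 1 / 2) ^ 2 + w ^ 2)) := by ring
    linarith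
  have h5 : 0 ≤ (u ^ 2 + w ^ 2 - x ^ 2 / 4) *
      ((1 + 2 * t * w + t ^ 2 * (u ^ 2 + w ^ 2)) - x ^ 2 * (1 + t ^ 2 / 4)) := by
    have : (u ^ 2 + w ^ 2 - x ^ 2 / 4) *
      ((1 + 2 * t * w + t ^ 2 * (u ^ 2 + w ^ 2)) - x ^ 2 * (1 + t ^ 2 / 4)) =
        (t * (u ^ 2 + w ^ 2 - x ^ 2 / 4) + w) ^ 2 +
          ((1 - x ^ 2) * (u ^ 2 + w ^ 2 - x ^ 2 / 4) - w ^ 2) := by ring
    rw [this]
    nlinarith [sq_nonneg (t * (u ^ 2 + w ^ 2 - x ^ 2 / 4) + w)]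
  have h6 := nonneg_of_mul_nonneg_right h5 hP
  linarith

end Pool.Agent.Q162.JN
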