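import Pool.Agent.Q81.JN.Stm

/-!
# Project JN, job MIII
-/

set_option autoImplicit false

open Complex Metric Set Filter Topology

namespace Pool.Agent.Q162.JN

open Pool.Agent.Q81.JN

/-- A function of a real variable which is at least its value at `1` on `(0, 1)` has derivative
at most `0` at `1`. -/
theorem deriv_nonpos_of_min_left {φ : ℝ → ℝ} {d : ℝ} (h : HasDerivAt φ d 1)
    (hm : ∀ s ∈ Ioo (0 : ℝ) 1, φ 1 ≤ φ s) : d ≤ 0 := by
  have ht := h.tendsto_slope_zero_left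
  refine le_of_tendsto ht ?_
  have h1 : ∀ᶠ t : ℝ in 𝓝[<] 0, t ∈ Ioo (-1 : ℝ) 0 := Ioo_mem_nhdsLT (by norm_num)
  filter_upwards [h1] with t ht'
  have h2 : φ 1 ≤ φ (1 + t) := hm _ ⟨by linarith [ht'.1], by linarith [ht'.2]⟩
  have h3 : t⁻¹ ≤ 0 := inv_nonpos.2 ht'.2.le
  rw [smul_eq_mul]
  exact mul_nonpos_of_nonpos_of_nonneg h3 (sub_nonneg.2 h2)

/-- The derivative of the modulus along a real curve. -/
theorem hasDerivAt_norm {F : ℝ → ℂ} {e : ℂ} {s : ℝ} (h : HasDerivAt F e s) (h0 : F s ≠ 0) :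
    HasDerivAt (fun s => ‖F s‖) (((F s).re * e.re + (F s).im * e.im) / ‖F s‖) s := by
  have h1 := h.norm_sq
  have hn : ‖F s‖ ^ 2 ≠ 0 := pow_ne_zero 2 (norm_ne_zero_iff.2 h0)
  have h2 := h1.sqrt hn
  have he : (fun s => ‖F s‖) = fun s => Real.sqrt (‖F s‖ ^ 2) := by
    funext s
    rw [Real.sqrt_sq (norm_nonneg _)]
  rw [he]
  refine h2.congr_deriv ?_
  rw [Real.sqrt_sq (norm_nonneg _), Complex.inner]
  simp only [Complex.mul_re, Complex.conj_re, Complex.conj_im]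
  have hn' : ‖F s‖ ≠ 0 := norm_ne_zero_iff.2 h0
  field_simp
  ring

/-- The algebra at a minimum point. -/
theorem algebra_point (hALA : S_ALA) {τ g κ : ℝ} {J q : ℂ} (hτ0 : 0 ≤ τ) (hτ1 : τ ≤ 1)
    (hg : 1 ≤ g) (hκ : 0 < κ) (hq : τ ≤ 1 + q.re) (hl : g - 1 / 2 < ‖J - 1 / 2‖)
    (hang : (J - 1 / 2).re * (1 - J - q * J).im - (J - 1 / 2).im * (1 - J - q * J).re = 0)
    (hrad : 1 - τ * g + κ ≤
      ((J - 1 / 2).re * (1 - J - q * J).re + (J - 1 / 2).im * (1 - J - q * J).im) /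
        ‖J - 1 / 2‖) : False := by
  set l := ‖J - 1 / 2‖ with hldef
  have hl0 : 0 < l := by linarith
  have hl2 : l ^ 2 = (J - 1 / 2).re ^ 2 + (J - 1 / 2).im ^ 2 := by
    rw [hldef, ← Complex.normSq_eq_norm_sq, Complex.normSq_apply]
    ring
  set a1 := (J - 1 / 2).re with ha1
  set a2 := (J - 1 / 2).im with ha2
  set e1 := (1 - J - q * J).re with he1
  set e2 := (1 - J - q * J).im with he2
  have hJ1 : J.re = a1 + 1 / 2 := by rw [ha1]; simp
  have hJ2 : J.im = a2 := by rw [ha2]; simp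
  have hE1 : e1 = 1 - (a1 + 1 / 2) - (q.re * (a1 + 1 / 2) - q.im * a2) := by
    rw [he1, ← hJ1, ← hJ2]; simp
  have hE2 : e2 = - a2 - (q.re * a2 + q.im * (a1 + 1 / 2)) := by
    rw [he2, ← hJ1, ← hJ2]; simp
  set D := (a1 * e1 + a2 * e2) / l with hD
  have hDl : D * l = a1 * e1 + a2 * e2 := by rw [hD]; field_simp
  set c := a1 / l with hc
  have hcl : l * c = a1 := by rw [hc]; field_simp
  have hc2 : c ^ 2 ≤ 1 := by
    have : a1 ^ 2 ≤ l ^ 2 := by rw [hl2]; nlinarith [sq_nonneg a2]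
    rw [hc, div_pow]
    exact (div_le_one (by positivity)).2 this
  have hcm : -1 ≤ c := by nlinarith [sq_nonneg (c + 1), sq_nonneg (c - 1)]
  have hcp : c ≤ 1 := by nlinarith [sq_nonneg (c + 1), sq_nonneg (c - 1)]
  have hmain := hALA τ g l D c κ hτ0 hτ1 hg hl hκ hrad hcm hcp
  -- the value of `e1`
  have hDe : e1 = D * c := by
    have h1 : l ^ 2 * e1 = a1 * (D * l) := by
      rw [hDl, hl2]
      linear_combination a2 * (-hang)
    have h2 : l ^ 2 * e1 = l ^ 2 * (D * c) := by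
      rw [h1, ← hcl]; ring
    exact mul_left_cancel₀ (pow_ne_zero 2 hl0.ne') h2
  have hJn : 1 / 4 + l ^ 2 + l * c = (a1 + 1 / 2) ^ 2 + a2 ^ 2 := by
    rw [hcl, hl2]; ring
  have hpos : 0 ≤ 1 / 4 + l ^ 2 + l * c := by rw [hJn]; positivity
  have hq2 : (1 + q.re) * (1 / 4 + l ^ 2 + l * c) = 1 / 2 - D * l + (l - D / 2) * c := by
    have h1 : (l - D / 2) * c = a1 - e1 / 2 := by rw [hDe, ← hcl]; ring
    rw [hJn, h1, hDl, hE1, hE2]
    ring
  have h3 : τ * (1 / 4 + l ^ 2 + l * c) ≤ (1 + q.re) * (1 / 4 + l ^ 2 + l * c) :=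
    mul_le_mul_of_nonneg_right hq hpos
  linarith

/-- Job MIII: the disc that contains the values of `J`. -/
theorem miii (hMF : S_MF) (hJF : S_JF) (hJC : S_JC) (hALA : S_ALA) : S_MIII := by
  intro A B f q hP z hz
  by_cases hz0 : z = 0
  · subst hz0
    simp only [JJ, JS, norm_zero, if_true]
    norm_num
  obtain ⟨hJcont, hJder⟩ := hJC A B f q hP
  obtain ⟨-, hJS, hJScont, hJSder⟩ := hJF A B hP.par
  obtain ⟨hτ, -⟩ := hMF A B hP.par
  have hzn : ‖z‖ < 1 := by simpa using hz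
  -- it is enough to have the inequality with `ε ‖z‖ ^ 2`
  refine le_of_forall_pos_le_add fun δ hδ => ?_
  have hz2 : 0 < ‖z‖ ^ 2 := by positivity
  set ε := δ / ‖z‖ ^ 2 with hε
  have hε0 : 0 < ε := div_pos hδ hz2
  have hεδ : ε * ‖z‖ ^ 2 = δ := by rw [hε]; field_simp
  rw [← hεδ]
  set ρ := ‖z‖ with hρ
  have hsub : closedBall (0 : ℂ) ρ ⊆ ball 0 1 := closedBall_subset_ball hzn
  let Ψ : ℂ → ℝ := fun w => JS A B ‖w‖ - 1 / 2 - ‖JJ f w - 1 / 2‖ + ε * ‖w‖ ^ 2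
  have hΨc : ContinuousOn Ψ (closedBall 0 ρ) := by
    have h1 : ContinuousOn (fun w : ℂ => JS A B ‖w‖) (closedBall 0 ρ) := by
      refine hJScont.comp continuous_norm.continuousOn ?_
      intro w hw
      have : ‖w‖ ≤ ρ := by simpa using hw
      exact ⟨norm_nonneg _, this.trans_lt hzn⟩
    have h2 : ContinuousOn (fun w : ℂ => ‖JJ f w - 1 / 2‖) (closedBall 0 ρ) :=
      ((hJcont.mono hsub).sub continuousOn_const).norm
    exact ((h1.sub continuousOn_const).sub h2).add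
      (continuous_const.mul (continuous_norm.pow 2)).continuousOn
  obtain ⟨p, hp, hmin⟩ := (isCompact_closedBall (0 : ℂ) ρ).exists_isMinOn
    ⟨0, by simp [hρ]⟩ hΨc
  have hΨ0 : Ψ 0 = 0 := by
    simp only [Ψ, JJ, JS, norm_zero, if_true]
    norm_num
  have hzmem : z ∈ closedBall (0 : ℂ) ρ := by simp [hρ]
  have h0mem : (0 : ℂ) ∈ closedBall (0 : ℂ) ρ := by simp [hρ]
  by_cases hp0 : p = 0
  · have h1 : Ψ 0 ≤ Ψ z := by
      have := hmin hzmem
      simpa [hp0] using this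
    rw [hΨ0] at h1
    simp only [Ψ] at h1
    linarith
  exfalso
  have hpb : p ∈ ball (0 : ℂ) 1 := hsub hp
  have hpn : ‖p‖ < 1 := by simpa using hpb
  have hpρ : ‖p‖ ≤ ρ := by simpa using hp
  have hp0' : 0 < ‖p‖ := norm_pos_iff.2 hp0
  have hΨp : Ψ p ≤ 0 := by
    have := hmin h0mem
    rw [← hΨ0]
    exact this
  have hg1 : 1 ≤ JS A B ‖p‖ := (hJS _ ⟨norm_nonneg _, hpn⟩).2.2
  have hp2 : 0 < ε * ‖p‖ ^ 2 := by positivity
  have hl : JS A B ‖p‖ - 1 / 2 < ‖JJ f p - 1 / 2‖ := by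
    simp only [Ψ] at hΨp
    linarith
  have hlpos : 0 < ‖JJ f p - 1 / 2‖ := by linarith
  have hlne : JJ f p - 1 / 2 ≠ 0 := norm_pos_iff.1 hlpos
  set e : ℂ := 1 - JJ f p - q p * JJ f p with he
  have hder := hJder p hpb hp0
  rw [← he] at hder
  -- angular derivative
  have hang : (JJ f p - 1 / 2).re * e.im - (JJ f p - 1 / 2).im * e.re = 0 := by
    let γ : ℝ → ℂ := fun θ => p * Complex.exp (θ * I)
    have hγ0 : γ 0 = p := by simp [γ]
    have hγn : ∀ θ, ‖γ θ‖ = ‖p‖ := fun θ => by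
      simp only [γ, norm_mul, Complex.norm_exp_ofReal_mul_I, mul_one]
    have hγd : HasDerivAt γ (p * I) 0 := by
      have h1 : HasDerivAt (fun θ : ℝ => Complex.exp (θ * I)) I 0 := by
        have h2 : HasDerivAt (fun θ : ℝ => (θ : ℂ) * I) (1 * I) 0 :=
          (Complex.ofRealCLM.hasDerivAt (x := (0 : ℝ))).mul_const I
        have h3 := h2.cexp
        simpa using h3
      exact h1.const_mul p
    have hF : HasDerivAt (fun θ : ℝ => JJ f (γ θ) - 1 / 2) (e / p * (p * I)) 0 := by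
      have h1 : HasDerivAt (JJ f) (e / p) (γ 0) := by rw [hγ0]; exact hder
      exact (h1.comp (0 : ℝ) hγd).sub_const _
    have hF' : HasDerivAt (fun θ : ℝ => JJ f (γ θ) - 1 / 2) (e * I) 0 := by
      refine hF.congr_deriv ?_
      field_simp
    have hne : (fun θ : ℝ => JJ f (γ θ) - 1 / 2) 0 ≠ 0 := by
      simp only [hγ0]; exact hlne
    have hN := hasDerivAt_norm hF' hne
    have hmax : IsLocalMax (fun θ : ℝ => ‖JJ f (γ θ) - 1 / 2‖) 0 := by
      refine Filter.Eventually.of_forall fun θ => ?_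
      have h1 : γ θ ∈ closedBall (0 : ℂ) ρ := by
        rw [mem_closedBall_zero_iff, hγn]; exact hpρ
      have h2 : Ψ p ≤ Ψ (γ θ) := hmin h1
      simp only [Ψ, hγn] at h2
      simp only [hγ0]
      linarith
    have h0 := hmax.hasDerivAt_eq_zero hN
    simp only [hγ0] at h0
    have h0' := (div_eq_zero_iff.1 h0).resolve_right hlpos.ne'
    simp only [Complex.mul_re, Complex.mul_im, Complex.I_re, Complex.I_im] at h0'
    linarith
  -- radial derivative
  have hrad : (1 - tau A B ‖p‖ * JS A B ‖p‖) + 2 * (ε * ‖p‖ ^ 2) ≤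
      ((JJ f p - 1 / 2).re * e.re + (JJ f p - 1 / 2).im * e.im) / ‖JJ f p - 1 / 2‖ := by
    let γ : ℝ → ℂ := fun s => (s : ℂ) * p
    have hγ1 : γ 1 = p := by simp [γ]
    have hγd : HasDerivAt γ p 1 := by
      have h1 : HasDerivAt (fun s : ℝ => (s : ℂ) * p) (1 * p) 1 :=
        (Complex.ofRealCLM.hasDerivAt (x := (1 : ℝ))).mul_const p
      simpa using h1
    have hF : HasDerivAt (fun s : ℝ => JJ f (γ s) - 1 / 2) e 1 := by
      have h1 : HasDerivAt (JJ f) (e / p) (γ 1) := by rw [hγ1]; exact hder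
      have h2 := (h1.comp (1 : ℝ) hγd).sub_const (1 / 2 : ℂ)
      refine h2.congr_deriv ?_
      field_simp
    have hne : (fun s : ℝ => JJ f (γ s) - 1 / 2) 1 ≠ 0 := by
      simp only [hγ1]; exact hlne
    have hN := hasDerivAt_norm hF hne
    simp only [hγ1] at hN
    have hS : HasDerivAt (fun s : ℝ => JS A B (s * ‖p‖))
        (1 - tau A B ‖p‖ * JS A B ‖p‖) 1 := by
      have h1 := hJSder ‖p‖ ⟨hp0', hpn⟩
      have h2 : HasDerivAt (fun s : ℝ => s * ‖p‖) (1 * ‖p‖) 1 :=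
        (hasDerivAt_id (1 : ℝ)).mul_const ‖p‖
      have h3 : HasDerivAt (JS A B) ((1 - tau A B ‖p‖ * JS A B ‖p‖) / ‖p‖) (1 * ‖p‖) := by
        rw [one_mul]; exact h1
      have h4 := h3.comp (1 : ℝ) h2
      refine h4.congr_deriv ?_
      field_simp
    have hQ : HasDerivAt (fun s : ℝ => ε * (s * ‖p‖) ^ 2) (2 * (ε * ‖p‖ ^ 2)) 1 := by
      have h2 : HasDerivAt (fun s : ℝ => s * ‖p‖) (1 * ‖p‖) 1 :=
        (hasDerivAt_id (1 : ℝ)).mul_const ‖p‖
      have h3 := (h2.pow 2).const_mul ε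
      refine h3.congr_deriv ?_
      ring
    have hall := ((hS.sub_const (1 / 2)).sub hN).add hQ
    have hle := deriv_nonpos_of_min_left hall ?_
    · linarith
    · intro s hs
      have hsn : ‖γ s‖ = s * ‖p‖ := by
        simp only [γ, norm_mul, Complex.norm_real, Real.norm_of_nonneg hs.1.le]
      have h1 : γ s ∈ closedBall (0 : ℂ) ρ := by
        rw [mem_closedBall_zero_iff, hsn]
        exact (mul_le_of_le_one_left hp0'.le hs.2.le).trans hpρ
      have h2 : Ψ p ≤ Ψ (γ s) := hmin h1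
      simp only [Ψ, hsn] at h2
      simp only [Pi.add_apply, Pi.sub_apply, hγ1, one_mul]
      exact h2
  have hτp := hτ ‖p‖ ⟨norm_nonneg _, hpn⟩
  exact algebra_point hALA (τ := tau A B ‖p‖) (g := JS A B ‖p‖) (κ := 2 * (ε * ‖p‖ ^ 2))
    (J := JJ f p) (q := q p) hτp.2.1.le hτp.2.2.1 hg1 (by positivity) (hP.qre p hpb) hl hang hrad

end Pool.Agent.Q162.JN
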